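import Pool.Agent.W739.CY.Stm

/-!
# Project CY, part SYM: colour symmetry and properness of the cyclic function
-/

set_option autoImplicit false

namespace Pool.Agent.W880.CY

open Pool.Agent.W739.CY

section

variable {C : Type} [DecidableEq C]

omit [DecidableEq C] in
lemma spl_map (σ : C → C) (w : List C) : ∀ f : List C → C → List C → ℝ,
    spl f (w.map σ) = spl (fun v c u => f (v.map σ) (σ c) (u.map σ)) w := by
  induction w with
  | nil => intro f; rfl
  | cons x w ih =>
    intro f
    show f [] (σ x) (w.map σ) + spl (fun v c u => f (σ x :: v) c u) (w.map σ) = _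
    rw [ih]
    rfl

omit [DecidableEq C] in
lemma spl_congr (w : List C) : ∀ f g : List C → C → List C → ℝ,
    (∀ v c u, f v c u = g v c u) → spl f w = spl g w := by
  intro f g h
  have : f = g := by
    funext v c u
    exact h v c u
  rw [this]

omit [DecidableEq C] in
lemma spl_zero (w : List C) : ∀ f : List C → C → List C → ℝ,
    (∀ v c u, f v c u = 0) → spl f w = 0 := by
  induction w with
  | nil => intro f _; rfl
  | cons x w ih =>
    intro f hf
    show f [] x w + spl (fun v c u => f (x :: v) c u) w = 0
    rw [hf, ih _ (fun v c u => hf _ _ _), add_zero]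

lemma not_ok (x : C) : ¬ ok (some x) (some x) := by
  unfold ok
  simp

lemma not_pr_mid (x : C) (v : List C) (b : Option C) (u : List C) : ∀ a : Option C,
    ¬ Pr a (u ++ x :: x :: v) b := by
  induction u with
  | nil =>
    intro a h
    exact not_ok x h.2.1
  | cons y u ih =>
    intro a h
    exact ih (some y) h.2

lemma not_pr_right (x : C) (u : List C) : ∀ a : Option C, ¬ Pr a (u ++ [x]) (some x) := by
  induction u with
  | nil =>
    intro a h
    exact not_ok x h.2
  | cons y u ih =>
    intro a h
    exact ih (some y) h.2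

lemma not_pr_left (x : C) (u : List C) (b : Option C) : ¬ Pr (some x) (x :: u) b := by
  intro h
  exact not_ok x h.1

variable (hDEL : S_DEL) (p z : ℝ) (hp : Good p)

include hDEL hp

lemma F1_zero (a : Option C) (w : List C) (b : Option C) (h : ¬ Pr a w b) : F1 p a w b = 0 := by
  unfold F1
  rw [(hDEL C p hp a b).2.1 w h, mul_zero]

lemma F1_map (σ : Equiv.Perm C) (a : Option C) (w : List C) (b : Option C) :
    F1 p (a.map σ) (w.map σ) (b.map σ) = F1 p a w b := by
  unfold F1
  rw [(hDEL C p hp a b).2.2.2.2 w σ, List.length_map]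

lemma Gn_map (σ : Equiv.Perm C) (n : ℕ) : ∀ (a : Option C) (w : List C) (b : Option C),
    Gn p z n (a.map σ) (w.map σ) (b.map σ) = Gn p z n a w b := by
  induction n with
  | zero =>
    intro a w b
    exact F1_map hDEL p hp σ a w b
  | succ n ih =>
    intro a w b
    unfold Gn
    rw [F1_map hDEL p hp, spl_map]
    congr 2
    refine spl_congr _ _ _ fun v c u => ?_
    have h1 := F1_map hDEL p hp σ a v (some c)
    have h2 := ih (some c) u b
    rw [Option.map_some] at h1 h2
    rw [h1, h2]

lemma G_map (σ : Equiv.Perm C) (a : Option C) (w : List C) (b : Option C) :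
    G p z (a.map σ) (w.map σ) (b.map σ) = G p z a w b := by
  unfold G
  rw [List.length_map]
  exact Gn_map hDEL p z hp σ _ a w b

lemma T_map (σ : Equiv.Perm C) (w : List C) : T p z (w.map σ) = T p z w := by
  unfold T
  rw [spl_map]
  refine spl_congr _ _ _ fun v j rest => ?_
  rw [spl_map]
  refine spl_congr _ _ _ fun g k u => ?_
  have h1 := G_map hDEL p z hp σ (some j) g (some k)
  have h2 := F1_map hDEL p hp σ (some k) (u ++ v) (some j)
  rw [Option.map_some, Option.map_some] at h1 h2
  rw [← List.map_append, h1, h2]

lemma G_left (hROT : S_ROT) (x : C) (g : List C) (b : Option C) :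
    G p z (some x) (x :: g) b = 0 := by
  rw [(hROT C p z hp).2.1]
  rw [F1_zero hDEL p hp _ _ _ (not_pr_left x g b)]
  show 0 + z * (F1 p (some x) [] (some x) * G p z (some x) g b +
    spl (fun v c u => F1 p (some x) (x :: v) (some c) * G p z (some c) u b) g) = 0
  rw [F1_zero hDEL p hp (some x) [] (some x) (not_ok x), spl_zero]
  · ring
  · intro v c u
    rw [F1_zero hDEL p hp _ _ _ (not_pr_left x v (some c)), zero_mul]

lemma G_nil (hROT : S_ROT) (x : C) : G p z (some x) ([] : List C) (some x) = 0 := by
  rw [(hROT C p z hp).2.1, F1_zero hDEL p hp (some x) [] (some x) (not_ok x)]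
  show 0 + z * 0 = 0
  ring

lemma T_proper (hROT : S_ROT) (x : C) (w : List C) : T p z (x :: x :: w) = 0 := by
  unfold T
  show spl (fun g k u => z ^ 2 * G p z (some x) g (some k) * F1 p (some k) (u ++ []) (some x))
      (x :: w) +
    (spl (fun g k u => z ^ 2 * G p z (some x) g (some k) * F1 p (some k) (u ++ [x]) (some x)) w +
    spl (fun v j rest => spl (fun g k u => z ^ 2 * G p z (some j) g (some k) *
      F1 p (some k) (u ++ (x :: x :: v)) (some j)) rest) w) = 0
  have h1 : spl (fun g k u => z ^ 2 * G p z (some x) g (some k) *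
      F1 p (some k) (u ++ []) (some x)) (x :: w) = 0 := by
    show z ^ 2 * G p z (some x) [] (some x) * F1 p (some x) (w ++ []) (some x) +
      spl (fun g k u => z ^ 2 * G p z (some x) (x :: g) (some k) *
        F1 p (some k) (u ++ []) (some x)) w = 0
    rw [G_nil hDEL p z hp hROT, spl_zero]
    · ring
    · intro g k u
      rw [G_left hDEL p z hp hROT]
      ring
  have h2 : spl (fun g k u => z ^ 2 * G p z (some x) g (some k) *
      F1 p (some k) (u ++ [x]) (some x)) w = 0 := by
    refine spl_zero _ _ fun g k u => ?_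
    rw [F1_zero hDEL p hp _ _ _ (not_pr_right x u (some k)), mul_zero]
  have h3 : spl (fun v j rest => spl (fun g k u => z ^ 2 * G p z (some j) g (some k) *
      F1 p (some k) (u ++ (x :: x :: v)) (some j)) rest) w = 0 := by
    refine spl_zero _ _ fun v j rest => ?_
    refine spl_zero _ _ fun g k u => ?_
    rw [F1_zero hDEL p hp _ _ _ (not_pr_mid x v (some j) u (some k)), mul_zero]
  rw [h1, h2, h3]
  ring

end

theorem t_SYM (hDEL : S_DEL) (hROT : S_ROT) : S_SYM := by
  intro C _ p z hp
  exact ⟨fun w σ => T_map hDEL p z hp σ w, fun x w => T_proper hDEL p z hp hROT x w⟩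

end Pool.Agent.W880.CY
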